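import Mathlib

set_option autoImplicit false
open Finset Equiv PowerSeries
open scoped Nat

namespace Pool.Agent.Results.MP_f17a8d_co.Mesh

/-- The shaded boxes. -/
def R : Finset (Fin 4 × Fin 4) :=
  {(0, 2), (0, 3), (1, 2), (1, 3), (2, 0), (2, 1), (2, 2), (2, 3), (3, 1), (3, 2)}

/-- `π` contains the mesh pattern `(132, R)`; positions and values are shifted to `1, ..., n`. -/
def Contains {n : ℕ} (π : Perm (Fin n)) : Prop :=
  ∃ i₁ i₂ i₃ : Fin n, i₁ < i₂ ∧ i₂ < i₃ ∧ π i₁ < π i₃ ∧ π i₃ < π i₂ ∧ ∀ b ∈ R, ¬ ∃ x : Fin n,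
    ![0, i₁.val + 1, i₂.val + 1, i₃.val + 1, n + 1] b.1.castSucc < x.val + 1 ∧
    x.val + 1 < ![0, i₁.val + 1, i₂.val + 1, i₃.val + 1, n + 1] b.1.succ ∧
    ![0, (π i₁).val + 1, (π i₃).val + 1, (π i₂).val + 1, n + 1] b.2.castSucc < (π x).val + 1 ∧
    (π x).val + 1 < ![0, (π i₁).val + 1, (π i₃).val + 1, (π i₂).val + 1, n + 1] b.2.succ

def ex {n : ℕ} (π : Perm (Fin n)) (i : ℕ) : ℕ := if h : i < n then π ⟨i, h⟩ else i

theorem ex_val {n : ℕ} (π : Perm (Fin n)) (i : Fin n) : ex π i = π i := dif_pos i.2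

theorem ex_inj (n : ℕ) : Function.Injective (ex (n := n)) := fun a b h =>
  Equiv.ext fun i => Fin.ext (by rw [← ex_val, ← ex_val, h])

noncomputable def S (n : ℕ) : Finset (ℕ → ℕ) := by classical exact univ.image (ex (n := n))

def Pm (n : ℕ) (f : ℕ → ℕ) : Prop := (∀ i j, f i = f j → i = j) ∧ ∀ i, n ≤ i → f i = i

theorem Pm.lt {n : ℕ} {f : ℕ → ℕ} (h : Pm n f) (i : ℕ) (hi : i < n) : f i < n := by
  by_contra c
  have := h.1 _ _ (h.2 (f i) (not_lt.mp c)); omega

theorem mem_S {n : ℕ} {f : ℕ → ℕ} : f ∈ S n ↔ Pm n f := by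
  simp only [S, mem_image, mem_univ, true_and]
  constructor
  · rintro ⟨π, rfl⟩
    refine ⟨fun i j h => ?_, fun i h => dif_neg h.not_gt⟩
    unfold ex at h
    split_ifs at h
    · simpa using π.injective (Fin.ext h)
    all_goals omega
  · intro h
    refine ⟨Equiv.ofBijective (fun i => ⟨f i, h.lt i i.2⟩) (Finite.injective_iff_bijective.mp
      fun a b e => Fin.ext (h.1 _ _ (congrArg Fin.val e))), funext fun i => ?_⟩
    unfold ex
    split_ifs with c
    exacts [rfl, (h.2 i (not_lt.mp c)).symm]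

theorem Pm.surj {n : ℕ} {f : ℕ → ℕ} (h : Pm n f) (v : ℕ) : ∃ i, f i = v := by
  classical
  by_cases c : v < n
  · obtain ⟨π, -, rfl⟩ := mem_image.mp (mem_S.mpr h)
    exact ⟨π.symm ⟨v, c⟩, by simp [ex_val]⟩
  · exact ⟨v, h.2 v (not_lt.mp c)⟩

def Oc (f : ℕ → ℕ) (i : ℕ) : Prop := f (i + 1) + 1 = f i ∧ (∀ j < i, f j < f i) ∧ ∃ j < i, f j + 2 = f i

noncomputable def occ (n : ℕ) (f : ℕ → ℕ) : Finset ℕ := by classical exact (range n).filter (Oc f)

theorem mem_occ {n i : ℕ} {f : ℕ → ℕ} : i ∈ occ n f ↔ i < n ∧ Oc f i := by simp [occ]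

theorem cont_iff {n : ℕ} (π : Perm (Fin n)) : Contains π ↔ (occ n (ex π)).Nonempty := by
  have P : Pm n (ex π) := by classical exact mem_S.mp (mem_image_of_mem _ (mem_univ _))
  simp only [Contains, R, mem_insert, mem_singleton, forall_eq_or_imp, forall_eq, not_exists]
  simp only [Fin.lt_def, ← ex_val]
  constructor
  · rintro ⟨a, b, c, h1, h2, h3, h4, s1, s2, s3, s4, s5, s6, s7, s8, s9, s10⟩
    simp at s1 s2 s3 s4 s5 s6 s7 s8 s9 s10
    have A : ∀ x < n, (x < a → ex π c < ex π x → ex π b ≤ ex π x) ∧ (x < a → ex π x ≤ ex π b) ∧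
        (a < x → x < b → ex π c < ex π x → ex π b ≤ ex π x) ∧ (a < x → x < b → ex π x ≤ ex π b) ∧
        (b < x → c ≤ x) ∧ (c < x → ex π a < ex π x → ex π c ≤ ex π x) ∧
        (c < x → ex π c < ex π x → ex π b ≤ ex π x) := by
      intro x hx
      obtain ⟨x, rfl⟩ : ∃ y : Fin n, y.val = x := ⟨⟨x, hx⟩, rfl⟩
      have := s1 x; have := s2 x; have := s3 x; have := s4 x
      have := s5 x; have := s6 x; have := s7 x; have := s8 x
      have := s9 x; have := s10 x
      have := P.lt x hx; have := P.1 x a; have := P.1 x b; have := P.1 x c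
      omega
    have hb := P.lt b b.2
    have e : c.val = b + 1 := by have := A (b + 1) (by omega); omega
    have lt : ∀ x, ex π x < n → x < n := fun x h => by_contra fun d => by
      have := P.2 x (not_lt.mp d); omega
    have e2 : ex π c + 1 = ex π b := by
      obtain ⟨x, hx⟩ := P.surj (ex π c + 1)
      have := A x (lt x (by omega))
      rcases (show x < a ∨ x = a ∨ (a < x ∧ x < b) ∨ x = b ∨ x = c ∨ c < x by omega) with
        d | rfl | d | rfl | rfl | d <;> omega
    refine ⟨b, mem_occ.mpr ⟨b.2, e ▸ e2, fun j hj => ?_, ?_⟩⟩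
    · have := A j (by omega); have := P.1 j b
      rcases (show j < a ∨ j = a ∨ a < j by omega) with d | rfl | d <;> omega
    · obtain ⟨x, hx⟩ := P.surj (ex π c - 1)
      have := A x (lt x (by omega)); have := P.1 x a
      refine ⟨x, ?_, by omega⟩
      rcases (show x < b ∨ x = b ∨ x = c ∨ c < x by omega) with d | rfl | rfl | d <;> omega
  · rintro ⟨i, hi⟩
    obtain ⟨hi, h1, h2, j, h3, h4⟩ := mem_occ.mp hi
    have : i + 1 < n := by
      by_contra c
      have := P.2 (i + 1) (by omega); have := P.lt i hi; omega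
    refine ⟨⟨j, by omega⟩, ⟨i, hi⟩, ⟨i + 1, this⟩, h3, by simp, by simp only; omega, by simp only; omega,
      ?_, ?_, ?_, ?_, ?_, ?_, ?_, ?_, ?_, ?_⟩ <;> intro x <;> have := h2 x <;> simp <;> omega

def ins (f : ℕ → ℕ) (p i : ℕ) : ℕ := if i < p then f i else if i = p then (range p).sup f + 2
  else if i = p + 1 then (range p).sup f + 1 else
    if (range p).sup f < f (i - 2) then f (i - 2) + 2 else f (i - 2)

theorem spec {f : ℕ → ℕ} {p : ℕ} (hp : 0 < p) : ∃ a, (range p).sup f = a ∧ (∀ j < p, f j ≤ a) ∧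
    (∃ j < p, f j = a) ∧ (∀ i < p, ins f p i = f i) ∧ ins f p p = a + 2 ∧ ins f p (p + 1) = a + 1 ∧
    ∀ i, p ≤ i → (a < f i → ins f p (i + 2) = f i + 2) ∧ (f i ≤ a → ins f p (i + 2) = f i) := by
  obtain ⟨j, h1, h2⟩ := exists_mem_eq_sup (range p) ⟨0, mem_range.mpr hp⟩ f
  refine ⟨_, rfl, fun j h => le_sup (mem_range.mpr h), ⟨j, mem_range.mp h1, h2.symm⟩,
    fun i h => if_pos h, by simp [ins], by simp [ins], fun i h => ?_⟩
  simp only [ins, if_neg (show ¬ i + 2 < p by omega), if_neg (show ¬ i + 2 = p by omega),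
    if_neg (show ¬ i + 2 = p + 1 by omega), Nat.add_sub_cancel]
  exact ⟨fun c => if_pos c, fun c => if_neg c.not_gt⟩

theorem cs (p i : ℕ) : i < p ∨ i = p ∨ i = p + 1 ∨ ∃ j, p ≤ j ∧ i = j + 2 := by
  rcases lt_or_ge i (p + 2) with h | h
  · omega
  · exact Or.inr (Or.inr (Or.inr ⟨i - 2, by omega, by omega⟩))

theorem ins_pm {n p : ℕ} {f : ℕ → ℕ} (h : Pm n f) (hp : 0 < p) (pn : p ≤ n) : Pm (n + 2) (ins f p) := by
  obtain ⟨a, -, h1, ⟨j0, h2, h2'⟩, h3, h4, h5, h6⟩ := spec (f := f) hp
  refine ⟨fun i j e => ?_, fun i hi => ?_⟩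
  · have I := h.1
    rcases cs p i with c | c | c | ⟨i, c, rfl⟩ <;> rcases cs p j with d | d | d | ⟨j, d, rfl⟩ <;> grind
  · obtain ⟨i, rfl⟩ : ∃ k, i = k + 2 := ⟨i - 2, by omega⟩
    have := h6 i (by omega); have := h.2 i (by omega); have := h.lt j0 (by omega); omega

theorem occ_ins {n p : ℕ} {f : ℕ → ℕ} (h : Pm n f) (hp : 0 < p) (pn : p ≤ n) :
    p ∈ occ (n + 2) (ins f p) ∧ #(occ (n + 2) (ins f p)) = #((occ n f).erase (p - 1)) + 1 := by
  obtain ⟨a, -, h1, ⟨j0, h2, h2'⟩, h3, h4, h5, h6⟩ := spec (f := f) hp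
  have m : Oc (ins f p) p := ⟨by omega, fun j c => by have := h1 j c; have := h3 j c; omega,
    j0, h2, by have := h3 j0 h2; omega⟩
  refine ⟨mem_occ.mpr ⟨by omega, m⟩, ?_⟩
  have lo : ∀ i, i + 1 < p → (Oc (ins f p) i ↔ Oc f i) := fun i c => by
    unfold Oc
    rw [h3 i (by omega), h3 _ c]
    exact and_congr_right fun _ => and_congr (forall₂_congr fun j d => by rw [h3 j (by omega)])
      (exists_congr fun j => and_congr_right fun d => by rw [h3 j (by omega)])
  have hi : ∀ i, p ≤ i → (Oc (ins f p) (i + 2) ↔ Oc f i) := fun i c => by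
    have e1 := h6 i c
    have e2 := h6 (i + 1) (by omega)
    have := h.1 (i + 1) j0
    constructor
    · rintro ⟨o1, o2, j, o3, o4⟩
      have := o2 p (by omega)
      rw [show i + 2 + 1 = i + 1 + 2 from rfl] at o1
      refine ⟨by omega, fun j d => ?_, ?_⟩
      · rcases lt_or_ge j p with q | q
        · have := h1 j q; omega
        · have := o2 (j + 2) (by omega); have := h6 j q; omega
      · rcases cs p j with d | rfl | rfl | ⟨j, d, rfl⟩
        · have := h1 j d; have := h3 j d; omega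
        · exact ⟨j0, by omega, by omega⟩
        · omega
        · exact ⟨j, by omega, by have := h6 j d; omega⟩
    · rintro ⟨o1, o2, j, o3, o4⟩
      have := o2 j0 (by omega)
      refine ⟨by rw [show i + 2 + 1 = i + 1 + 2 from rfl]; omega, fun j d => ?_, ?_⟩
      · rcases cs p j with d | rfl | rfl | ⟨j, q, rfl⟩
        · have := h1 j d; have := h3 j d; omega
        · omega
        · omega
        · have := o2 j (by omega); have := h6 j q; omega
      · rcases lt_or_ge j p with q | q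
        · exact ⟨p, by omega, by have := h1 j q; omega⟩
        · have := h6 j q; have := h.1 j j0
          exact ⟨j + 2, by omega, by omega⟩
  have : occ (n + 2) (ins f p) =
      insert p (((occ n f).erase (p - 1)).image fun i => if i < p then i else i + 2) := by
    ext i
    simp only [mem_insert, mem_image, mem_erase, mem_occ]
    constructor
    · rintro ⟨c, o⟩
      rcases cs p i with d | rfl | rfl | ⟨i, d, rfl⟩
      · have : i + 1 ≠ p := by
          rintro rfl
          have := o.1; have := h3 i d; have := h1 i d; omega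
        exact Or.inr ⟨i, ⟨by omega, by omega, (lo i (by omega)).mp o⟩, if_pos d⟩
      · exact Or.inl rfl
      · have := o.2.1 p (by omega); omega
      · exact Or.inr ⟨i, ⟨by omega, by omega, (hi i d).mp o⟩, if_neg d.not_gt⟩
    · rintro (rfl | ⟨i, ⟨c, d, o⟩, rfl⟩)
      · exact ⟨by omega, m⟩
      · split_ifs with q
        exacts [⟨by omega, (lo i (by omega)).mpr o⟩, ⟨by omega, (hi i (by omega)).mpr o⟩]
  rw [this, card_insert_of_notMem, card_image_of_injective]
  · intro x y e; simp only at e; split_ifs at e <;> omega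
  · simp only [mem_image, not_exists, not_and]
    intro x _; split_ifs <;> omega

theorem ins_surj {n p : ℕ} {g : ℕ → ℕ} (h : Pm (n + 2) g) (o : p ∈ occ (n + 2) g) :
    0 < p ∧ p ≤ n ∧ ∃ f, Pm n f ∧ ins f p = g := by
  obtain ⟨hp, o1, o2, j0, o3, o4⟩ := mem_occ.mp o
  have l := h.lt p hp
  have pn : p ≤ n := by
    by_contra c
    have := h.2 (p + 1) (by omega); omega
  let f : ℕ → ℕ := fun i => if i < p then g i else if g p < g (i + 2) then g (i + 2) - 2 else g (i + 2)
  have f1 : ∀ i < p, f i = g i ∧ g i + 2 ≤ g p := fun i c =>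
    ⟨if_pos c, by have := o2 i c; have := h.1 i (p + 1); omega⟩
  have f2 : ∀ i, p ≤ i → (g p < g (i + 2) ∧ f i + 2 = g (i + 2)) ∨ (g (i + 2) + 2 < g p ∧ f i = g (i + 2)) :=
    fun i c => by
      have := h.1 (i + 2) p; have := h.1 (i + 2) (p + 1); have := h.1 (i + 2) j0
      simp only [f, if_neg c.not_gt]; split_ifs <;> omega
  refine ⟨by omega, pn, f, ⟨fun i j e => ?_, fun i c => ?_⟩, funext fun i => ?_⟩
  · rcases lt_or_ge i p with c | c <;> rcases lt_or_ge j p with d | d
    · have := f1 i c; have := f1 j d; have := h.1 i j; omega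
    · have := f1 i c; have := f2 j d; have := h.1 i (j + 2); omega
    · have := f2 i c; have := f1 j d; have := h.1 j (i + 2); omega
    · have := f2 i c; have := f2 j d; have := h.1 (i + 2) (j + 2); omega
  · have := f2 i (by omega); have := h.2 (i + 2) (by omega); omega
  · obtain ⟨a, -, h1, ⟨j1, h2, h2'⟩, h3, h4, h5, h6⟩ := spec (f := f) (show 0 < p by omega)
    have := f1 j0 o3; have := f1 j1 h2; have := h1 j0 o3
    rcases cs p i with d | rfl | rfl | ⟨i, d, rfl⟩
    · rw [h3 i d, (f1 i d).1]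
    · omega
    · omega
    · have := h6 i d; have := f2 i d; omega

theorem recur (n k : ℕ) : (k + 1) * ∑ g ∈ S (n + 2), (#(occ (n + 2) g)).choose (k + 1) =
    (n - k) * ∑ f ∈ S n, (#(occ n f)).choose k := by
  classical
  have e1 : (k + 1) * ∑ g ∈ S (n + 2), (#(occ (n + 2) g)).choose (k + 1) =
      ∑ z ∈ (S (n + 2)).sigma (occ (n + 2)), (#(occ (n + 2) z.1) - 1).choose k := by
    rw [sum_sigma, mul_sum]
    refine sum_congr rfl fun g _ => ?_
    simp only [sum_const, smul_eq_mul]
    rcases #(occ (n + 2) g) with _ | o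
    · simp
    · rw [Nat.add_sub_cancel, Nat.add_one_mul_choose_eq, mul_comm]
  have e2 : ∑ z ∈ S n ×ˢ range n, (#((occ n z.1).erase z.2)).choose k =
      ∑ z ∈ (S (n + 2)).sigma (occ (n + 2)), (#(occ (n + 2) z.1) - 1).choose k := by
    refine sum_bij (fun z _ => ⟨ins z.1 (z.2 + 1), z.2 + 1⟩) ?_ ?_ ?_ ?_
    · rintro ⟨f, p⟩ h
      obtain ⟨a, b⟩ := mem_product.mp h
      exact mem_sigma.mpr ⟨mem_S.mpr (ins_pm (mem_S.mp a) p.succ_pos (mem_range.mp b)),
        (occ_ins (mem_S.mp a) p.succ_pos (mem_range.mp b)).1⟩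
    · rintro ⟨f, p⟩ - ⟨f', p'⟩ - e
      simp only [Sigma.mk.injEq, heq_eq_eq, Nat.add_right_cancel_iff] at e
      obtain ⟨e, rfl⟩ := e
      obtain ⟨a, -, -, -, h3, h4, -, h6⟩ := spec (f := f) (p := p + 1) p.succ_pos
      obtain ⟨a', -, -, -, g3, g4, -, g6⟩ := spec (f := f') (p := p + 1) p.succ_pos
      rw [e] at h3 h4 h6
      refine Prod.ext (funext fun i => ?_) rfl
      rcases lt_or_ge i (p + 1) with c | c
      · exact (h3 i c).symm.trans (g3 i c)
      · have := h6 i c; have := g6 i c; simp only; omega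
    · rintro ⟨g, p⟩ h
      obtain ⟨a, b⟩ := mem_sigma.mp h
      simp only at a b
      obtain ⟨c, d, f, e, rfl⟩ := ins_surj (mem_S.mp a) b
      exact ⟨(f, p - 1), mem_product.mpr ⟨mem_S.mpr e, mem_range.mpr (by omega)⟩, by
        simp only [Nat.sub_add_cancel c]⟩
    · rintro ⟨f, p⟩ h
      obtain ⟨a, b⟩ := mem_product.mp h
      rw [(occ_ins (mem_S.mp a) p.succ_pos (mem_range.mp b)).2]; rfl
  rw [e1, ← e2, sum_product, mul_sum]
  refine sum_congr rfl fun f _ => ?_
  have s : occ n f ⊆ range n := fun i h => mem_range.mpr (mem_occ.mp h).1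
  have c := card_le_card s
  rw [← sum_sdiff s, sum_congr rfl fun p h => by rw [erase_eq_of_notMem (mem_sdiff.mp h).2],
    sum_congr (s₁ := occ n f) rfl fun p h => by rw [card_erase_of_mem h], sum_const, sum_const,
    card_sdiff_of_subset s, smul_eq_mul, smul_eq_mul]
  rw [card_range] at c ⊢
  generalize #(occ n f) = o at c
  rcases lt_or_ge o k with d | d
  · rw [Nat.choose_eq_zero_of_lt d, Nat.choose_eq_zero_of_lt (show o - 1 < k by omega)]; simp
  · have : o * (o - 1).choose k = (o - k) * o.choose k := by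
      rcases o with _ | o
      · simp
      · rw [Nat.add_sub_cancel, mul_comm, Nat.choose_mul_succ_eq, mul_comm]
    rw [this, ← add_mul, show n - o + (o - k) = n - k by omega]

theorem form (k : ℕ) : ∀ n, ∑ f ∈ S n, (#(occ n f)).choose k = (n - 2 * k)! * (n - k - 1).choose k := by
  classical
  induction k with
  | zero => intro n; simp [S, card_image_of_injective _ (ex_inj n), Fintype.card_perm]
  | succ k ih =>
    intro n
    rcases lt_or_ge n 2 with c | c
    · rw [Nat.choose_eq_zero_of_lt (show n - (k + 1) - 1 < k + 1 by omega), mul_zero]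
      refine sum_eq_zero fun f _ => ?_
      rw [show occ n f = ∅ from eq_empty_of_forall_notMem fun i h => by
        obtain ⟨a, -, -, j, b, -⟩ := mem_occ.mp h; omega]
      simp
    obtain ⟨n, rfl⟩ : ∃ m, n = m + 2 := ⟨n - 2, by omega⟩
    refine Nat.eq_of_mul_eq_mul_left k.succ_pos ((recur n k).trans ?_)
    rw [ih, show n + 2 - 2 * (k + 1) = n - 2 * k by omega, show n + 2 - (k + 1) - 1 = n - k by omega]
    rcases n - k with _ | m
    · simp
    · rw [Nat.add_sub_cancel, mul_left_comm, Nat.add_one_mul_choose_eq]; simp only [Nat.succ_eq_add_one]; ring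

noncomputable def B (m : ℕ) : ℚ⟦X⟧ :=
  PowerSeries.mk fun t => if t % 2 = 0 then (-1) ^ (t / 2) * ((m + t / 2 - 1).choose (t / 2) : ℚ) else 0

theorem pw (m : ℕ) : ((1 + X ^ 2 : ℚ⟦X⟧)⁻¹) ^ m = B m := by
  induction m with
  | zero =>
    ext t
    rw [pow_zero, coeff_one, B, coeff_mk]
    split_ifs with a b b
    · simp [a]
    · omega
    · rw [Nat.choose_eq_zero_of_lt (by omega)]; simp
    · rfl
  | succ m ih =>
    have : B m = B (m + 1) * (1 + X ^ 2) := by
      ext t
      rw [mul_add, mul_one, map_add, coeff_mul_X_pow', B, B, coeff_mk, coeff_mk, coeff_mk]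
      rcases lt_or_ge t 2 with c | c
      · interval_cases t <;> simp
      obtain ⟨t, rfl⟩ : ∃ m, t = m + 2 := ⟨t - 2, by omega⟩
      simp only [Nat.add_mod_right, Nat.add_div_right _ two_pos, le_add_iff_nonneg_left, zero_le, if_true,
        Nat.add_sub_cancel]
      split_ifs
      · rw [show m + 1 + (t / 2 + 1) - 1 = m + t / 2 + 1 by omega, show m + (t / 2 + 1) - 1 = m + t / 2 by omega,
          show m + 1 + t / 2 - 1 = m + t / 2 by omega, Nat.choose_succ_succ']
        push_cast; ring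
      · simp
    rw [pow_succ, ih, this, mul_assoc, PowerSeries.mul_inv_cancel _ (by simp), mul_one]

theorem result (n N : ℕ) (h : n < N) : (Nat.card {π : Perm (Fin n) // ¬ Contains π} : ℚ) =
    coeff n (∑ m ∈ range N, (m ! : ℚ⟦X⟧) * (X * (1 + X ^ 2)⁻¹) ^ m) := by
  classical
  have e1 : (Nat.card {π : Perm (Fin n) // ¬ Contains π} : ℚ) =
      ∑ k ∈ range (n + 1), (-1 : ℚ) ^ k * ((n - 2 * k)! * (n - k - 1).choose k : ℕ) := by
    simp only [← form, Nat.cast_sum, mul_sum]
    rw [sum_comm, S, sum_image fun a _ b _ e => ex_inj n e, Nat.card_eq_fintype_card,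
      Fintype.card_subtype, card_filter, Nat.cast_sum]
    refine sum_congr rfl fun π _ => ?_
    have c : #(occ n (ex π)) ≤ n := (card_le_card (filter_subset _ _)).trans (card_range n).le
    have := congrArg (Int.cast (R := ℚ)) (Int.alternating_sum_range_choose (n := #(occ n (ex π))))
    push_cast at this
    rw [← sum_subset (range_subset_range.mpr (Nat.succ_le_succ c)) fun k _ a => by
      rw [Nat.choose_eq_zero_of_lt (by simpa using a)]; simp, this]
    simp [cont_iff]
  rw [e1, map_sum, ← sum_subset (range_subset_range.mpr (show n / 2 + 1 ≤ n + 1 by omega)) fun k _ a => by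
    rw [Nat.choose_eq_zero_of_lt (by simp at a; omega)]; simp]
  have e2 : ∀ m, coeff n ((m ! : ℚ⟦X⟧) * (X * (1 + X ^ 2)⁻¹) ^ m) =
      m ! * if m ≤ n then coeff (n - m) (B m) else 0 := fun m => by
    rw [mul_pow, pw, ← map_natCast (C (R := ℚ)), coeff_C_mul, coeff_X_pow_mul']
  simp only [e2, B, coeff_mk]
  refine sum_of_injOn (fun k => n - 2 * k) (fun a ha b hb e => ?_) (fun k _ => mem_range.mpr (by simp only; omega))
    (fun m _ hm => ?_) fun k hk => ?_
  · simp only [coe_range, Set.mem_Iio] at ha hb e; omega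
  · split_ifs with a b
    · exact (hm ⟨(n - m) / 2, mem_coe.mpr (mem_range.mpr (by omega)), by simp only; omega⟩).elim
    all_goals simp
  · have := mem_range.mp hk
    rw [if_pos (by omega), if_pos (by omega), show (n - (n - 2 * k)) / 2 = k by omega,
      show n - 2 * k + k - 1 = n - k - 1 by omega]
    push_cast; ring

end Pool.Agent.Results.MP_f17a8d_co.Mesh
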